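import Pool.Agent.D0H43.L3.StmF
import Pool.Agent.D0H43.L3.Supp
import Pool.Agent.Y100.CT.CUB3

/-!
# Project L3, task SELC (helper10): local solutions at three

Adapted from `Pool/Agent/N883/FF/Cub3.lean`.
-/

set_option autoImplicit false

namespace Pool.Agent.D0H10.L3

open Pool.Agent.Y692.QS
open Pool.Agent.Y715.T.Gi Pool.Agent.Y715.T.Nr Pool.Agent.Y715.T.Df Pool.Agent.Y715.T.Ell
open Pool.Agent.Y715.T.Red Pool.Agent.Y715.T.Thr
open Pool.Agent.Y703.CT
open Pool.Agent.Y100.CT.CUB3 (root norm_nine)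
open Pool.Agent.D0H43.L3
open Pool.Agent.D0H43.L3.Supp (ei_eq)

namespace Cub3T

/-- the condition `tq i (1 + 3 b) = 0` -/
lemma form (i : ZMod 3) (b : Ei) (h : tq i (1 + 3 * b) = 0) :
    ∃ (c : ℤ) (m : Ei), b = (c : Ei) * w ^ i.val + 3 * m := by
  unfold tq at h
  rw [Chi.nq_one, Chi.yq_one] at h
  have he := ei_eq b
  have hi : ∀ i : ZMod 3, i = 0 ∨ i = 1 ∨ i = 2 := by decide
  rcases hi i with rfl | rfl | rfl
  · rw [zero_mul, zero_add, ZMod.intCast_zmod_eq_zero_iff_dvd] at h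
    obtain ⟨k, hk⟩ := h
    refine ⟨b.re, k * w, ?_⟩
    have h1 : ((b.im : ℤ) : Ei) = 3 * (k : Ei) := by
      rw [hk]
      push_cast
      ring
    rw [ZMod.val_zero, pow_zero]
    linear_combination he + w * h1
  · have h2 : ((b.re : ℤ) : ZMod 3) = 0 := by
      push_cast at h
      linear_combination -h
    rw [ZMod.intCast_zmod_eq_zero_iff_dvd] at h2
    obtain ⟨k, hk⟩ := h2
    refine ⟨b.im, k, ?_⟩
    have h1 : ((b.re : ℤ) : Ei) = 3 * (k : Ei) := by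
      rw [hk]
      push_cast
      ring
    have hv : (1 : ZMod 3).val = 1 := rfl
    rw [hv, pow_one]
    linear_combination he + h1
  · have h2 : ((b.re - b.im : ℤ) : ZMod 3) = 0 := by
      push_cast at h ⊢
      have h3 : (3 : ZMod 3) = 0 := rfl
      linear_combination h - ((b.re : ℤ) : ZMod 3) * h3 * (-1) - 0 * h3
    rw [ZMod.intCast_zmod_eq_zero_iff_dvd] at h2
    obtain ⟨k, hk⟩ := h2
    refine ⟨-b.im, k, ?_⟩
    have h1 : ((b.re : ℤ) : Ei) - ((b.im : ℤ) : Ei) = 3 * (k : Ei) := by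
      have := congrArg (Int.cast : ℤ → Ei) hk
      push_cast at this
      exact this
    have hv : (2 : ZMod 3).val = 2 := rfl
    have hw := w_sq
    rw [hv]
    push_cast
    linear_combination he + h1 + ((b.im : ℤ) : Ei) * hw

lemma cube_sub (c : ℤ) : ∃ k : ℤ, c ^ 3 = c + 3 * k := by
  have h : ((c ^ 3 - c : ℤ) : ZMod 3) = 0 := by
    push_cast
    generalize (c : ZMod 3) = x
    revert x
    decide
  rw [ZMod.intCast_zmod_eq_zero_iff_dvd] at h
  obtain ⟨k, hk⟩ := h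
  push_cast at hk
  exact ⟨k, by linear_combination hk⟩

end Cub3T

/-- **L3-CUB3** -/
theorem cub3T : S_CUB3T := by
  intro _ I hI i B r hB h0
  obtain ⟨b, hb⟩ := hB
  have eB : B = 1 + 3 * b := by linear_combination hb
  rw [eB] at h0
  obtain ⟨c, m, hm⟩ := Cub3T.form i b h0
  obtain ⟨k, hk⟩ := Cub3T.cube_sub c
  have hk' : (c : Ei) ^ 3 = (c : Ei) + 3 * (k : Ei) := by exact_mod_cast congrArg (Int.cast : ℤ → Ei) hk
  have hfix : ∀ z : Ei, ∀ τ : Au 3, τ I = I → τ (ev I hI z) = ev I hI z :=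
    fun z τ hτ => ev_fix hI hτ z
  obtain ⟨z, hz⟩ : ∃ z, B ^ 2 + B * (3 * (w ^ i.val * (1 + 3 * r))) * (c : Ei) ^ 3 =
      1 + 9 * z := by
    refine ⟨w ^ i.val * (k + c) + 2 * m + b ^ 2 + w ^ i.val * r * c ^ 3 +
      b * (w ^ i.val * (1 + 3 * r)) * c ^ 3, ?_⟩
    rw [eB]
    linear_combination 6 * hm + 3 * w ^ i.val * hk'
  obtain ⟨s, hs, hs0, hsf⟩ := root hI (c := ev I hI (1 + 9 * z)) (hfix _) (by
    rw [map_add, map_one, add_sub_cancel_left]
    exact norm_nine hI z)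
  refine ⟨s, 1, ev I hI (c : Ei), ⟨fun τ hτ => ⟨hsf τ hτ, map_one τ, hfix _ τ hτ⟩,
    Or.inl hs0, ?_⟩⟩
  rw [hs, ← hz, map_add, map_mul, map_mul, map_pow, map_pow]
  ring

end Pool.Agent.D0H10.L3
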