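import Pool.Agent.D0H43.L3.StmF
import Pool.Agent.D0H43.L3.Sel
import Pool.Agent.N883.FF.Selc
import Pool.Agent.Y180.CT.Loc3

/-!
# Project L3, task SELC (helper10): a nontrivial kernel gives a nontrivial Selmer class

Adapted from `Pool/Agent/N883/FF/Selc.lean`.
-/

set_option autoImplicit false
set_option linter.unusedSectionVars false

open scoped Classical

namespace Pool.Agent.D0H10.L3

open Pool.Agent.Y692.QS (Ei w nr)
open Pool.Agent.Y715.T.Gi Pool.Agent.Y715.T.Nr Pool.Agent.Y715.T.Df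
open Pool.Agent.Y715.T.Rec (cs)
open Pool.Agent.Y715.T.RecG
open Pool.Agent.Y715.T.Sel (kc_mul kc_one kc_congr kc_pow kc_uniq kc_exp ex_root root_ne
  iota_sq iota_ev odd_of not_dvd_of_unr i₀_mod exists_emb3 kc_unit)
open Pool.Agent.Y48.CT.SEL (p0 pr0 esq prod_form cf_prod not_assoc_lam)
open Pool.Agent.Y155.CT (a_mul a_cont)
open Pool.Agent.Y703.CT
open Pool.Agent.Y363.CT.SELC (exists_tw not_lt_prod)
open Pool.Agent.Y180.CT (fin_of)
open Pool.Agent.N883.FF.Sel (w_unit w_ne cf_unit)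
open Pool.Agent.D0H43.L3
open Pool.Agent.D0H43.L3.Sel (gen gen_ne kc_gen gen_mul_pow cf_gen pT_eq pT_ne pT_norm)
open Pool.Agent.D0H43.L3.Chi (tq_mul tq_unit)
open Pool.Agent.D0H43.L3.Supp (cop_prim)

namespace SelcT

variable {J : Type} [Fintype J] {π : J → Ei} {e : J → ZMod 3}
variable {i₀ : QB} {hi : i₀ ^ 2 + i₀ + 1 = 0}

lemma tq_pow (i : ZMod 3) {x : Ei} (hx : IsCoprime x 3) (n : ℕ) :
    tq i (x ^ n) = n * tq i x := by
  induction n with
  | zero => rw [pow_zero, tq_unit i isUnit_one, Nat.cast_zero, zero_mul]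
  | succ n ih =>
    rw [pow_succ, tq_mul i hx.pow_left hx, ih]
    push_cast
    ring

lemma tq_prod (i : ZMod 3) (h : ∀ j, IsCoprime (π j) 3) (f : J → ℕ) (S : Finset J) :
    tq i (∏ j ∈ S, π j ^ f j) = ∑ j ∈ S, (f j : ZMod 3) * tq i (π j) := by
  induction S using Finset.induction_on with
  | empty => rw [Finset.prod_empty, Finset.sum_empty, tq_unit i isUnit_one]
  | insert a S ha ih =>
    rw [Finset.prod_insert ha, Finset.sum_insert ha, tq_mul i (h a).pow_left
      (IsCoprime.prod_left fun j _ => (h j).pow_left), ih, tq_pow i (h a)]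

end SelcT

/-- **L3-SELC.** -/
theorem selcT : S_SELCT := by
  intro hFF hCUB hCUB3 hPT hRAMC J _ π e i hD hker i₀ hi u a hTw hsel
  have hker' : ∃ v : J → ZMod 3, (∀ j, ∑ k, e k * cs (π j) (π k) * (v k - v j) =
      tq i (π j) * v j) ∧ ∃ j, v j ≠ 0 := by
    by_contra hcon
    apply hker
    intro v hv j
    by_contra hne
    exact hcon ⟨v, hv, j, hne⟩
  obtain ⟨v, hv, j₁, hne⟩ := hker'
  have hB0 : (∏ j, π j ^ (e j * v j).val) ≠ 0 := pr0 hD _
  have hD0 : pT π e i ≠ 0 := pT_ne hD i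
  obtain ⟨β, a', hTw'⟩ := exists_tw (hi := hi) (∏ j, π j ^ (e j * v j).val)
  have hm : ∀ σ τ : GK i₀, -a' (σ * τ) = -a' σ + -a' τ := by
    intro σ τ
    rw [a_mul hB0 hTw' σ τ]
    ring
  have hc : IsLocallyConstant (fun σ : GK i₀ => -a' σ) :=
    (a_cont hB0 hTw').comp (fun c : ZMod 3 => -c)
  have hKc : Kc hi (∏ j, π j ^ (e j * v j).val) (fun σ => -a' σ) :=
    kc_of hi (root_ne (hi := hi) hB0 hTw'.cube) hTw'.cube hTw'.act
  -- the condition at three
  have hcop : ∀ j, IsCoprime (π j) 3 := fun j => cop_prim (hD.pq j).three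
  have h9 : tq i (∏ j, π j ^ (e j * v j).val) = 0 := by
    rw [SelcT.tq_prod i hcop (fun j => (e j * v j).val) Finset.univ]
    have h1 := Pool.Agent.N883.FF.Selc.sum_zero hD v
    rw [← h1]
    refine Finset.sum_congr rfl fun j _ => ?_
    rw [hv j, ZMod.natCast_zmod_val]
    ring
  obtain ⟨r, hr⟩ := prod_form hD (fun j => (e j).val)
  have hr' : pD π e = 1 + 3 * r := by
    unfold pD
    rw [← hr]
    ring
  have hloc : ∀ (p : ℕ) [Fact p.Prime] (ι : QB →ₐ[ℚ] PadicAlgCl p),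
      ∃ R, St1 hi ι a (fun σ => -a' σ) R := by
    intro p _ ι
    by_cases hp3 : p = 3
    · subst hp3
      refine hPT i₀ hi _ _ hB0 hD0 u a hTw _ hKc 3 ι ?_
      have h1 := hCUB3 inferInstance (ι i₀) (iota_sq' hi ι) i _ r (prod_form hD _) h9
      unfold pT
      rw [hr']
      exact h1
    · by_cases hj : ∃ j, ‖ι (ev i₀ hi (π j))‖ < 1
      · obtain ⟨j, hj⟩ := hj
        exact hRAMC J π e i hD i₀ hi u a hTw v _ hKc j (hv j) p ι hj
      · have hj' : ∀ j, ¬ ‖ev (ι i₀) (iota_sq' hi ι) (π j)‖ < 1 := by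
          intro j h1
          apply hj
          refine ⟨j, ?_⟩
          rw [iota_ev]
          exact h1
        have hpB : ¬ ‖ev (ι i₀) (iota_sq' hi ι) (pT π e i)‖ < 1 := by
          intro h1
          refine pT_norm hD i hp3 ι (fun j h2 => hj ⟨j, h2⟩) (hi := hi) ?_
          rw [iota_ev]
          exact h1
        exact hPT i₀ hi _ _ hB0 hD0 u a hTw _ hKc p ι
          (hCUB hFF p hp3 (ι i₀) (iota_sq' hi ι) _ _ (not_lt_prod _ hj' _) hpB)
  obtain ⟨c, hc'⟩ := hsel _ hc hm hloc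
  -- the character `a`
  have hb : Kc hi (gen π i.val 2 (fun j => (e j).val)) (fun σ => -a σ) := by
    have h1 : Kc hi (pT π e i) (fun σ => -a σ) :=
      kc_of hi (root_ne (hi := hi) (z := pT π e i) hD0 hTw.cube) hTw.cube hTw.act
    refine kc_unit (u := -1) (gen_ne hD _ _ _) (Or.inr rfl) ?_
    rw [pT_eq] at h1
    rwa [neg_one_mul]
  have hKc0 : Kc hi (gen π 0 0 (fun j => (e j * v j).val)) (fun σ => -a' σ) := by
    have e1 : gen π 0 0 (fun j => (e j * v j).val) = ∏ j, π j ^ (e j * v j).val := by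
      unfold gen
      rw [pow_zero, pow_zero, one_mul, one_mul]
    rw [e1]
    exact hKc
  have hy := kc_mul (gen_ne hD _ _ _) (pow_ne_zero c.val (gen_ne hD _ _ _)) hKc0
    (kc_pow (gen_ne hD _ _ _) hb c.val)
  rw [gen_mul_pow] at hy
  have hy2 : Kc hi (gen π (i.val * c.val) (2 * c).val (fun k => (e k * (v k + c)).val))
      (fun σ => -a' σ + (c.val : ZMod 3) * -a σ) := by
    refine kc_gen (p0 hD) (by rw [zero_add]) ?_ (fun k => ?_) hy
    · rw [ZMod.natCast_zmod_val]
      push_cast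
      rw [ZMod.natCast_zmod_val]
      ring
    · push_cast
      rw [ZMod.natCast_zmod_val, ZMod.natCast_zmod_val, ZMod.natCast_zmod_val,
        ZMod.natCast_zmod_val]
      ring
  have hy3 : ∀ σ : GK i₀, -a' σ + (c.val : ZMod 3) * -a σ = 0 := by
    intro σ
    have h1 : -a' σ = c * a σ := hc' σ
    rw [h1, ZMod.natCast_zmod_val]
    ring
  have hyj : ∀ j, e j * (v j + c) = 0 := by
    intro j
    obtain ⟨p, hp, ι, hl⟩ := exists_emb hi (hD.pq j).prime
    have hp3 := odd_of hi ι (hD.pq j).prime hl (not_assoc_lam (hD.pq j))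
    have h1 := not_dvd_of_unr (cf_unit (w_unit.pow (i.val * c.val))
      (cf_gen hD (2 * c) (fun k => e k * (v k + c)))) hy2 hp3 ι
      (hD.pq j).prime hl (fun τ σ _ _ => hy3 σ)
    by_contra hne'
    apply h1
    refine Dvd.dvd.mul_left (Dvd.dvd.mul_left (dvd_trans (dvd_pow_self (π j) ?_)
      (Finset.dvd_prod_of_mem
      (fun k => π k ^ (e k * (v k + c)).val) (Finset.mem_univ j))) _) _
    rwa [Ne, ZMod.val_eq_zero]
  have hvj : ∀ j, v j = -c := by
    intro j
    have h2 := esq hD j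
    have h3 : v j + c = 0 := by
      calc v j + c = (e j * e j) * (v j + c) := by rw [h2, one_mul]
        _ = e j * (e j * (v j + c)) := by ring
        _ = 0 := by rw [hyj, mul_zero]
    exact eq_neg_of_add_eq_zero_left h3
  have hc0 : c ≠ 0 := by
    rintro rfl
    apply hne
    rw [hvj, neg_zero]
  -- `lam ^ (2 c)` would be a cube at three up to a unit
  have hprod : gen π (i.val * c.val) (2 * c).val (fun k => (e k * (v k + c)).val) =
      w ^ (i.val * c.val) * lam ^ (2 * c).val := by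
    unfold gen
    have e1 : ∏ k, π k ^ (e k * (v k + c)).val = 1 := by
      refine Finset.prod_eq_one fun k _ => ?_
      rw [hyj k, ZMod.val_zero, pow_zero]
    rw [e1, mul_one]
  rw [hprod] at hy2
  obtain ⟨s, hs⟩ := ex_root (ev i₀ hi (w ^ (i.val * c.val) * lam ^ (2 * c).val))
  have hfix : ∀ σ : GK i₀, σ s = s := by
    intro σ
    have h1 := hy2 s hs σ
    simp only [hy3 σ, ZMod.val_zero, pow_zero, one_mul] at h1
    exact h1
  obtain ⟨ι₃⟩ := exists_emb3
  have hmem : ι₃ s ∈ Pool.Agent.Y180.CT.Kl (ι₃ i₀) := by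
    intro τ hτ
    obtain ⟨σ, hcm⟩ := exists_cmp ι₃ τ hτ
    rw [hcm, hfix]
  have hfin := (fin_of (q := 0) hi ι₃ (w_unit.pow (i.val * c.val)) hmem (zero_mem _)
    (by rw [norm_zero]; exact zero_le_one)
    (by rw [mul_zero, add_zero, mul_one, mul_zero, add_zero, mul_one, ← map_pow, hs,
      Pool.Agent.Y180.CT.iota_ev' hi ι₃])).1
  have hlt : (2 * c).val < 3 := ZMod.val_lt _
  have hval : (2 * c).val = 0 := by omega
  rw [ZMod.val_eq_zero] at hval
  have : ∀ c : ZMod 3, 2 * c = 0 → c = 0 := by decide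
  exact hc0 (this c hval)

end Pool.Agent.D0H10.L3
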